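import Mathlib
import Pool.Agent.R469.Runs

set_option autoImplicit false

/-!
Arbitrarily long runs of consecutive integers of equal finite height: such runs begin at almost all
integers of finite height, which have positive natural density.
-/

namespace Pool.Agent.Results.MP_e99302_nt.EqualHeightRuns

open Filter Topology

/-- The Collatz map. -/
def C (n : ℕ) : ℕ := if n % 2 = 0 then n / 2 else 3 * n + 1

/-- The accelerated map. -/
def T (n : ℕ) : ℕ := if n % 2 = 0 then n / 2 else (3 * n + 1) / 2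

open Classical in
/-- The height `h(n)`: the least `k ≥ 0` with `C^(k)(n) = 1`, and `⊤ = ∞` if there is none. -/
noncomputable def height (n : ℕ) : ℕ∞ :=
  if h : ∃ k : ℕ, C^[k] n = 1 then ((Nat.find h : ℕ) : ℕ∞) else ⊤

open Classical in
/-- The total stopping time: the least `k ≥ 0` with `T^(k)(n) = 1`, and `⊤ = ∞` if there is none. -/
noncomputable def totalStoppingTime (n : ℕ) : ℕ∞ :=
  if h : ∃ k : ℕ, T^[k] n = 1 then ((Nat.find h : ℕ) : ℕ∞) else ⊤

/-- The positive integers with the property `P` have the natural density `l`. -/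
def HasDensity (P : ℕ → Prop) (l : ℝ) : Prop :=
  Tendsto (fun N : ℕ => ({n : ℕ | 1 ≤ n ∧ n ≤ N ∧ P n}.ncard : ℝ) / N) atTop (𝓝 l)

/-- `R n = exp (√(log n) / (log log n)^16)`, which tends to infinity. -/
noncomputable def R (n : ℕ) : ℝ := Real.exp (√ (Real.log n) / (Real.log (Real.log n)) ^ 16)

open Pool.Agent.R469 in
/-- **Q1.** For every `L ≥ 1` there is an `n ≥ 1` such that `n, n + 1, ..., n + L - 1` all have the same
finite height. Moreover the integers of finite height have a positive natural density `δ`, and so have,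
with the same `δ`, the integers `n` of finite height for which all the integers
`n, n + 1, ..., n + ⌊R n⌋` have the same height and the same total stopping time. -/
theorem result :
    (∀ L : ℕ, 1 ≤ L → ∃ n : ℕ, 1 ≤ n ∧ ∃ k : ℕ, ∀ i < L, height (n + i) = k) ∧
    ∃ δ : ℝ, 0 < δ ∧ HasDensity (fun n => height n ≠ ⊤) δ ∧
      HasDensity (fun n => height n ≠ ⊤ ∧ ∀ i : ℕ, (i : ℝ) ≤ R n →
        height (n + i) = height n ∧ totalStoppingTime (n + i) = totalStoppingTime n) δ ∧
      Tendsto R atTop atTop := by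
  obtain ⟨δ, h0, _, _, h1, h2⟩ := Runs.dens
  have hh : ∀ n, height n = Steps.firstTime Steps.C n := fun n => rfl
  have hT : ∀ n, totalStoppingTime n = Steps.firstTime Steps.T n := fun n => rfl
  have h3 : HasDensity (fun n => height n ≠ ⊤ ∧ ∀ i : ℕ, (i : ℝ) ≤ R n →
        height (n + i) = height n ∧ totalStoppingTime (n + i) = totalStoppingTime n) δ := h2
  refine ⟨fun L _ => ?_, δ, h0, h1, h3, Runs.R_tendsto⟩
  have hinf := Runs.infinite_of_dens h0 h3
  obtain ⟨N0, hN0⟩ := (Runs.R_tendsto.eventually_ge_atTop (L : ℝ)).exists_forall_of_atTop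
  obtain ⟨n, ⟨hn1, hn2, hn3⟩, hn⟩ := hinf.exists_gt N0
  have hR : (L : ℝ) ≤ R n := hN0 n hn.le
  obtain ⟨k, hk⟩ := ENat.ne_top_iff_exists.1 hn2
  refine ⟨n, hn1, k, fun i hi => ?_⟩
  have hi' : (i : ℝ) ≤ R n := by
    have : (i : ℝ) ≤ L := by exact_mod_cast hi.le
    linarith
  rw [(hn3 i hi').1, ← hk]

end Pool.Agent.Results.MP_e99302_nt.EqualHeightRuns
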